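import Pool.Agent.Lib.MP_6e7c44_mp.MJ.DA0
import Pool.Agent.Lib.MP_6e7c44_mp.MJ.DA1
import Pool.Agent.Lib.MP_6e7c44_mp.MJ.DA2
import Pool.Agent.Lib.MP_6e7c44_mp.MJ.DA3
import Pool.Agent.Lib.MP_6e7c44_mp.MJ.DAb0
import Pool.Agent.Lib.MP_6e7c44_mp.MJ.DAb1
import Pool.Agent.Lib.MP_6e7c44_mp.MJ.DAb2
import Pool.Agent.Lib.MP_6e7c44_mp.MJ.DAb3
import Pool.Agent.Lib.MP_6e7c44_mp.MJ.DAb4
import Pool.Agent.Lib.MP_6e7c44_mp.MJ.DB0
import Pool.Agent.Lib.MP_6e7c44_mp.MJ.DB1
import Pool.Agent.Lib.MP_6e7c44_mp.MJ.DB2
import Pool.Agent.Lib.MP_6e7c44_mp.MJ.DB3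
import Pool.Agent.Lib.MP_6e7c44_mp.MJ.DB4
import Pool.Agent.Lib.MP_6e7c44_mp.MJ.DC0
import Pool.Agent.Lib.MP_6e7c44_mp.MJ.DC1
import Pool.Agent.Lib.MP_6e7c44_mp.MJ.DC2
import Pool.Agent.Lib.MP_6e7c44_mp.MJ.DC3
import Pool.Agent.Lib.MP_6e7c44_mp.MJ.DC4
import Pool.Agent.Lib.MP_6e7c44_mp.MJ.DD0
import Pool.Agent.Lib.MP_6e7c44_mp.MJ.DD1
import Pool.Agent.Lib.MP_6e7c44_mp.MJ.DD2
import Pool.Agent.Lib.MP_6e7c44_mp.MJ.DD3
import Pool.Agent.Lib.MP_6e7c44_mp.MJ.DE0
import Pool.Agent.Lib.MP_6e7c44_mp.MJ.DE1
import Pool.Agent.Lib.MP_6e7c44_mp.MJ.DE2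
import Pool.Agent.Lib.MP_6e7c44_mp.MJ.DE3
import Pool.Agent.Lib.MP_6e7c44_mp.MJ.DE4
import Pool.Agent.Lib.MP_6e7c44_mp.MJ.DE5
import Pool.Agent.Lib.MP_6e7c44_mp.MJ.DE6
import Pool.Agent.Lib.MP_6e7c44_mp.MJ.DE7
import Pool.Agent.Lib.MP_6e7c44_mp.MJ.DE8
import Pool.Agent.Lib.MP_6e7c44_mp.MJ.DE9
import Pool.Agent.Lib.MP_6e7c44_mp.MJ.DE10
import Pool.Agent.Lib.MP_6e7c44_mp.MJ.DE11
import Pool.Agent.Lib.MP_6e7c44_mp.MJ.DE12
import Pool.Agent.Lib.MP_6e7c44_mp.MJ.DE13
import Pool.Agent.Lib.MP_6e7c44_mp.MJ.DE14
import Pool.Agent.Lib.MP_6e7c44_mp.MJ.DX0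
import Pool.Agent.Lib.MP_6e7c44_mp.MJ.DX1
import Pool.Agent.Lib.MP_6e7c44_mp.MJ.DX2
import Pool.Agent.Lib.MP_6e7c44_mp.MJ.DX3
import Pool.Agent.Lib.MP_6e7c44_mp.MJ.DX4
import Pool.Agent.Lib.MP_6e7c44_mp.MJ.DX5
import Pool.Agent.Lib.MP_6e7c44_mp.MJ.DX6
import Pool.Agent.Lib.MP_6e7c44_mp.MJ.DX7
import Pool.Agent.Lib.MP_6e7c44_mp.MJ.DX8
import Pool.Agent.Lib.MP_6e7c44_mp.MJ.DX9
import Pool.Agent.Lib.MP_6e7c44_mp.MJ.DX10
import Pool.Agent.Lib.MP_6e7c44_mp.MJ.DX11
import Pool.Agent.Lib.MP_6e7c44_mp.MJ.DX12
import Pool.Agent.Lib.MP_6e7c44_mp.MJ.DX13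
import Pool.Agent.Lib.MP_6e7c44_mp.MR.Up

/-! The checked rectangles cover the region of masses. -/

namespace Pool.Agent.Lib.MP_6e7c44_mp.MR

lemma col0 : Up 0 45089 0 :=
  (.v b0_0
    (.v b0_21282
    (.v b0_42564
    (.v b0_63846
    (.v b0_80661
    (.v b0_92760
    (.v b0_102681
    (.h (m := 20972) (.v b0_104859
    (.v b0_120629
    (.v b0_131073
    (.v b0_136913
    (.nil (by decide))))))
    (.h (m := 44040) (.v b20972_104859
    (.v b20972_122207
    (.v b20972_131073
    (.nil (by decide)))))
    (.w b44040_104859 (by decide)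
    (.w b44040_122233 (by decide)
    (.w b44040_131073 (by decide)
    (.nil (by decide))))))))))))))

lemma col1 : Up 45089 90178 0 :=
  (.v b45089_0
    (.v b45089_21282
    (.v b45089_42564
    (.v b45089_63846
    (.v b45089_77634
    (.v b45089_91247
    (.v b45089_102408
    (.h (m := 71303) (.w b44040_104859 (by decide)
    (.w b44040_122233 (by decide)
    (.w b44040_131073 (by decide)
    (.nil (by decide)))))
    (.w b71303_104859 (by decide)
    (.w b71303_120714 (by decide)
    (.w b71303_131073 (by decide)
    (.nil (by decide)))))))))))))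

lemma col2 : Up 90178 135266 0 :=
  (.v b90178_0
    (.v b90178_25113
    (.v b90178_45705
    (.v b90178_66297
    (.v b90178_82107
    (.v b90178_95531
    (.h (m := 100663) (.w b71303_104859 (by decide)
    (.w b71303_120714 (by decide)
    (.w b71303_131073 (by decide)
    (.nil (by decide)))))
    (.h (m := 123732) (.v b100663_104859
    (.v b100663_122207
    (.v b100663_136643
    (.nil (by decide)))))
    (.w b123732_104859 (by decide)
    (.w b123732_121420 (by decide)
    (.w b123732_133786 (by decide)
    (.nil (by decide)))))))))))))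

lemma col3 : Up 135266 178258 0 :=
  (.v b135266_0
    (.v b135266_23945
    (.v b135266_40044
    (.v b135266_59041
    (.v b135266_74618
    (.v b135266_89739
    (.v b135266_102137
    (.h (m := 145752) (.w b123732_104859 (by decide)
    (.w b123732_121420 (by decide)
    (.w b123732_133786 (by decide)
    (.nil (by decide)))))
    (.h (m := 167772) (.v b145752_104859
    (.v b145752_121420
    (.v b145752_133786
    (.nil (by decide)))))
    (.w b167772_104859 (by decide)
    (.w b167772_118223 (by decide)
    (.w b167772_129018 (by decide)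
    (.nil (by decide))))))))))))))

lemma col4 : Up 178258 218104 0 :=
  (.v b178258_0
    (.v b178258_22193
    (.v b178258_40391
    (.v b178258_58589
    (.v b178258_70825
    (.v b178258_85264
    (.v b178258_95062
    (.v b178258_103095
    (.h (m := 188744) (.w b167772_104859 (by decide)
    (.w b167772_118223 (by decide)
    (.w b167772_129018 (by decide)
    (.nil (by decide)))))
    (.h (m := 214958) (.w b188744_103110 (by decide)
    (.v b188744_115106
    (.h (m := 212632) (.v b188744_124663
    (.h (m := 193044) (.v b188744_132498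
    (.nil (by decide)))
    (.nil (by decide))))
    (.nil (by decide)))))
    (.w b214958_95770 (by decide)
    (.w b214958_109804 (by decide)
    (.w b214958_119169 (by decide)
    (.nil (by decide)))))))))))))))

lemma col5 : Up 218104 253755 0 :=
  (.v b218104_0
    (.v b218104_19856
    (.v b218104_33206
    (.v b218104_48960
    (.v b218104_61878
    (.v b218104_74796
    (.v b218104_85388
    (.h (m := 243111) (.v b218104_93726
    (.h (m := 236978) (.w b214958_95770 (by decide)
    (.w b214958_109804 (by decide)
    (.h (m := 226367) (.w b214958_119169 (by decide)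
    (.nil (by decide)))
    (.nil (by decide)))))
    (.w b236978_101826 (by decide)
    (.h (m := 242872) (.v b236978_112567
    (.nil (by decide)))
    (.nil (by decide))))))
    (.w b236978_89129 (by decide)
    (.w b236978_101826 (by decide)
    (.nil (by decide))))))))))))

lemma col6 : Up 253755 285213 0 :=
  (.v b253755_0
    (.v b253755_17521
    (.v b253755_31888
    (.v b253755_43668
    (.v b253755_57569
    (.v b253755_66915
    (.v b253755_74578
    (.h (m := 281706) (.v b253755_80861
    (.h (m := 262242) (.v b253755_87349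
    (.h (m := 256901) (.w b236978_89129 (by decide)
    (.w b236978_101826 (by decide)
    (.nil (by decide))))
    (.w b256901_80390 (by decide)
    (.w b256901_90557 (by decide)
    (.w b256901_98757 (by decide)
    (.nil (by decide)))))))
    (.w b256901_80390 (by decide)
    (.w b256901_90557 (by decide)
    (.h (m := 277397) (.w b256901_98757 (by decide)
    (.nil (by decide)))
    (.nil (by decide)))))))
    (.h (m := 283116) (.w b256901_80390 (by decide)
    (.w b256901_90557 (by decide)
    (.nil (by decide))))
    (.w b283116_72351 (by decide)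
    (.w b283116_81705 (by decide)
    (.w b283116_89088 (by decide)
    (.nil (by decide))))))))))))))

lemma col7 : Up 285213 312476 0 :=
  (.v b285213_0
    (.v b285213_15185
    (.v b285213_25394
    (.v b285213_39610
    (.v b285213_51267
    (.v b285213_60825
    (.v b285213_68560
    (.h (m := 307233) (.w b283116_72351 (by decide)
    (.w b283116_81705 (by decide)
    (.h (m := 301569) (.w b283116_89088 (by decide)
    (.nil (by decide)))
    (.nil (by decide)))))
    (.w b307233_73608 (by decide)
    (.w b307233_81406 (by decide)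
    (.nil (by decide))))))))))))

lemma col8 : Up 312476 336593 0 :=
  (.v b312476_0
    (.v b312476_13432
    (.v b312476_24446
    (.v b312476_37443
    (.v b312476_48100
    (.v b312476_56838
    (.h (m := 330301) (.w b307233_64662 (by decide)
    (.w b307233_73608 (by decide)
    (.h (m := 320774) (.w b307233_81406 (by decide)
    (.nil (by decide)))
    (.nil (by decide)))))
    (.w b330301_57671 (by decide)
    (.w b330301_67268 (by decide)
    (.w b330301_74211 (by decide)
    (.nil (by decide))))))))))))

lemma col9 : Up 336593 357564 0 :=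
  (.v b336593_0
    (.v b336593_13783
    (.v b336593_23050
    (.v b336593_33986
    (.v b336593_42953
    (.v b336593_51920
    (.h (m := 351273) (.w b330301_57671 (by decide)
    (.w b330301_67268 (by decide)
    (.h (m := 338762) (.w b330301_74211 (by decide)
    (.nil (by decide)))
    (.nil (by decide)))))
    (.w b351273_56755 (by decide)
    (.w b351273_60279 (by decide)
    (.w b351273_65187 (by decide)
    (.nil (by decide))))))))))))

lemma col10 : Up 357564 375390 0 :=
  (.v b357564_0
    (.v b357564_11717
    (.v b357564_23434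
    (.v b357564_33041
    (.v b357564_42648
    (.w b351273_48933 (by decide)
    (.w b351273_53231 (by decide)
    (.w b351273_56755 (by decide)
    (.h (m := 373592) (.w b351273_60279 (by decide)
    (.h (m := 361322) (.w b351273_65187 (by decide)
    (.nil (by decide)))
    (.nil (by decide))))
    (.nil (by decide)))))))))))

lemma col11 : Up 375390 390070 0 :=
  (.v b375390_0
    (.v b375390_9649
    (.v b375390_16136
    (.v b375390_25169
    (.v b375390_34202
    (.v b375390_41918
    (.h (m := 385773) (.v b375390_46172
    (.h (m := 377487) (.w b351273_48933 (by decide)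
    (.w b351273_53231 (by decide)
    (.w b351273_56755 (by decide)
    (.nil (by decide)))))
    (.w b377487_48870 (by decide)
    (.h (m := 384303) (.v b377487_50529
    (.h (m := 382367) (.v b377487_56769
    (.nil (by decide)))
    (.nil (by decide))))
    (.w b384303_50529 (by decide)
    (.w b384303_54326 (by decide)
    (.nil (by decide))))))))
    (.w b377487_44389 (by decide)
    (.w b377487_48870 (by decide)
    (.w b384303_50529 (by decide)
    (.h (m := 388474) (.w b384303_54326 (by decide)
    (.nil (by decide)))
    (.nil (by decide)))))))))))))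

lemma col12 : Up 390070 402653 0 :=
  (.v b390070_0
    (.v b390070_7009
    (.v b390070_14018
    (.v b390070_22289
    (.v b390070_30560
    (.v b390070_38928
    (.h (m := 391119) (.w b377487_44389 (by decide)
    (.w b377487_48870 (by decide)
    (.w b384303_50529 (by decide)
    (.nil (by decide)))))
    (.w b391119_40195 (by decide)
    (.w b391119_46991 (by decide)
    (.h (m := 396262) (.v b391119_51211
    (.nil (by decide)))
    (.nil (by decide))))))))))))

lemma col13 : Up 402653 409993 0 :=
  (.v b402653_0
    (.v b402653_9359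
    (.v b402653_17033
    (.v b402653_26089
    (.v b402653_34620
    (.h (m := 403702) (.w b391119_40195 (by decide)
    (.w b391119_46991 (by decide)
    (.nil (by decide))))
    (.w b403702_36700 (by decide)
    (.w b403702_42366 (by decide)
    (.h (m := 406342) (.v b403702_47179
    (.nil (by decide)))
    (.nil (by decide)))))))))))

lemma col14 : Up 409993 416285 0 :=
  (.v b409993_0
    (.v b409993_9464
    (.v b409993_18928
    (.v b409993_28392
    (.h (m := 415233) (.v b409993_36352
    (.h (m := 414188) (.w b403702_36700 (by decide)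
    (.w b403702_42366 (by decide)
    (.nil (by decide))))
    (.w b414188_33904 (by decide)
    (.w b414188_40215 (by decide)
    (.nil (by decide))))))
    (.w b414188_33904 (by decide)
    (.w b414188_40215 (by decide)
    (.nil (by decide)))))))))

lemma col15 : Up 416285 421528 0 :=
  (.v b416285_0
    (.v b416285_7890
    (.v b416285_17201
    (.v b416285_24836
    (.w b414188_33904 (by decide)
    (.w b414188_40215 (by decide)
    (.nil (by decide))))))))

lemma col16 : Up 421528 426246 0 :=
  (.v b421528_0
    (.v b421528_7099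
    (.v b421528_14198
    (.v b421528_21297
    (.v b421528_28943
    (.h (m := 422576) (.w b414188_33904 (by decide)
    (.w b414188_40215 (by decide)
    (.nil (by decide))))
    (.w b422576_33871 (by decide)
    (.v b422576_35201
    (.h (m := 424579) (.v b422576_39884
    (.nil (by decide)))
    (.nil (by decide)))))))))))

lemma col17 : Up 426246 429916 0 :=
  (.v b426246_0
    (.v b426246_6521
    (.v b426246_14216
    (.v b426246_20525
    (.v b426246_28991
    (.w b422576_31457 (by decide)
    (.w b422576_33871 (by decide)
    (.v b426246_35201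
    (.nil (by decide))))))))))

lemma col18 : Up 429916 433062 0 :=
  (.v b429916_0
    (.v b429916_5590
    (.v b429916_12187
    (.v b429916_18784
    (.v b429916_26263
    (.w b429916_29535 (by decide)
    (.w b429916_34659 (by decide)
    (.nil (by decide)))))))))

lemma col19 : Up 433062 436208 0 :=
  (.v b433062_0
    (.v b433062_4737
    (.v b433062_9474
    (.v b433062_15064
    (.v b433062_21661
    (.v b433062_27754
    (.h (m := 435683) (.w b429916_29535 (by decide)
    (.w b429916_34659 (by decide)
    (.nil (by decide))))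
    (.w b435683_27962 (by decide)
    (.w b435683_32909 (by decide)
    (.nil (by decide)))))))))))

lemma col20 : Up 436208 439353 0 :=
  (.v b436208_0
    (.v b436208_3401
    (.v b436208_6802
    (.v b436208_11539
    (.v b436208_16276
    (.v b436208_21866
    (.v b436208_27086
    (.w b435683_27962 (by decide)
    (.w b435683_32909 (by decide)
    (.nil (by decide)))))))))))

lemma col21 : Up 439353 441450 0 :=
  (.v b439353_0
    (.v b439353_4400
    (.v b439353_8800
    (.v b439353_13993
    (.v b439353_20121
    (.v b439353_26853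
    (.h (m := 440402) (.w b435683_27962 (by decide)
    (.w b435683_32909 (by decide)
    (.nil (by decide))))
    (.w b440402_27088 (by decide)
    (.nil (by decide))))))))))

lemma col22 : Up 441450 443548 0 :=
  (.v b441450_0
    (.v b441450_3733
    (.v b441450_7466
    (.v b441450_11871
    (.v b441450_16276
    (.v b441450_21474
    (.h (m := 442646) (.w b440402_27088 (by decide)
    (.nil (by decide)))
    (.nil (by decide)))))))))

lemma col23 : Up 443548 445435 0 :=
  (.v b443548_0
    (.v b443548_2843
    (.v b443548_6198
    (.v b443548_10157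
    (.v b443548_14116
    (.v b443548_18075
    (.h (m := 444780) (.v b443548_22164
    (.nil (by decide)))
    (.nil (by decide)))))))))

lemma col24 : Up 445435 447008 0 :=
  (.v b445435_0
    (.v b445435_2798
    (.v b445435_6100
    (.v b445435_9402
    (.v b445435_13299
    (.v b445435_16975
    (.nil (by decide))))))))

lemma col25 : Up 447008 448371 0 :=
  (.v b447008_0
    (.v b447008_1742
    (.v b447008_3798
    (.v b447008_6662
    (.v b447008_10042
    (.v b447008_13422
    (.nil (by decide))))))))

lemma col26 : Up 448371 449629 0 :=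
  (.v b448371_0
    (.v b448371_1155
    (.v b448371_2310
    (.v b448371_3919
    (.v b448371_6160
    (.v b448371_8805
    (.h (m := 449272) (.v b448371_11797
    (.nil (by decide)))
    (.nil (by decide)))))))))

lemma col27 : Up 449629 450783 0 :=
  (.v b449629_0
    (.v b449629_758
    (.v b449629_1653
    (.v b449629_2901
    (.v b449629_4374
    (.v b449629_6113
    (.v b449629_8166
    (.h (m := 449846) (.v b449629_10473
    (.nil (by decide)))
    (.nil (by decide))))))))))

lemma col28 : Up 450783 451831 0 :=
  (.v b450783_0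
    (.v b450783_691
    (.v b450783_1507
    (.v b450783_2470
    (.v b450783_3433
    (.v b450783_4775
    (.h (m := 451629) (.v b450783_6359
    (.nil (by decide)))
    (.nil (by decide)))))))))

lemma col29 : Up 451831 452775 0 :=
  (.v b451831_0
    (.v b451831_621
    (.v b451831_1242
    (.v b451831_1975
    (.v b451831_2708
    (.v b451831_3729
    (.h (m := 452326) (.v b451831_4750
    (.nil (by decide)))
    (.nil (by decide)))))))))

lemma col30 : Up 452775 453614 0 :=
  (.v b452775_0
    (.v b452775_653
    (.v b452775_1306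
    (.h (m := 453536) (.v b452775_1959
    (.h (m := 453141) (.v b452775_2869
    (.nil (by decide)))
    (.nil (by decide))))
    (.nil (by decide))))))

lemma col31 : Up 453614 454453 0 :=
  (.v b453614_0
    (.h (m := 454182) (.v b453614_468
    (.h (m := 453787) (.v b453614_1378
    (.nil (by decide)))
    (.nil (by decide))))
    (.nil (by decide))))

lemma col32 : Up 454453 455606 0 :=
  (.nil (by decide))

lemma cover : Up 0 1048576 0 :=
  (.h col0 (.h col1 (.h col2 (.h col3 (.h col4 (.h col5 (.h col6 (.h col7 (.h col8 (.h col9 (.h col10 (.h col11 (.h col12 (.h col13 (.h col14 (.h col15 (.h col16 (.h col17 (.h col18 (.h col19 (.h col20 (.h col21 (.h col22 (.h col23 (.h col24 (.h col25 (.h col26 (.h col27 (.h col28 (.h col29 (.h col30 (.h col31 (.h col32 (.nil (by decide)))))))))))))))))))))))))))))))))))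

end Pool.Agent.Lib.MP_6e7c44_mp.MR
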