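/-! Long numerals are written in pieces of 1440 binary digits. -/

namespace Pool.Agent.Lib.MP_6e7c44_mp.MR

/-- The number with the binary digits of `a` followed by the 1440 binary digits of `b`. -/
noncomputable def jn (a b : Nat) : Nat := Nat.add (Nat.shiftLeft a (nat_lit 1440)) b

end Pool.Agent.Lib.MP_6e7c44_mp.MR
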